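import Pool.Agent.Helper52.KP.StG

/-! Project KP, module CNX (identity principle on the orbit), by helper57. -/

set_option autoImplicit false

namespace Pool.Agent.Helper57.KP

open MeasureTheory Pool.Agent.Helper52.KP Pool.Agent.Helper67.NO Filter
open scoped Topology

universe u

/-- identity theorem for entire functions of one variable -/
private lemma entire_zero (φ : ℂ → ℂ) (hφ : Differentiable ℂ φ) (h0 : ∀ᶠ t in 𝓝 (0 : ℂ), φ t = 0)
    (t : ℂ) : φ t = 0 := by
  have h1 : AnalyticOnNhd ℂ φ Set.univ := fun z _ =>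
    (hφ.differentiableOn (s := Set.univ)).analyticAt (by simp)
  have h2 := h1.eqOn_zero_of_preconnected_of_eventuallyEq_zero isPreconnected_univ
    (Set.mem_univ (0 : ℂ)) h0
  exact h2 (Set.mem_univ t)

theorem hCNX (hORB : StORB.{u}) (hNEA : StNEA.{u}) : StCNX.{u} := by
  intro g _ _ _ _ x₀ hx₀ hnil k f hf hf0 x p X hX V hV hVne
  by_contra hcon
  push Not at hcon
  apply hf0
  obtain ⟨hA, hT, hS, hC, -, -, -⟩ := hORB g
  -- step 0
  have h0 : ∀ w : Fin p → ℂ, ext f (chart x.1 X w) = 0 := by
    have hd : Differentiable ℂ (fun w : Fin p → ℂ => ext f (chart x.1 X w)) := by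
      have h1 := hf.1 x p X
      have h2 : (fun w : Fin p → ℂ => ext f (chart x.1 X w)) =
          fun w : Fin p → ℂ => f ⟨chart x.1 X w, Orb.step _ _ x.2⟩ := by
        funext w
        unfold ext
        rw [dif_pos (show Orb x₀ (chart x.1 X w) from Orb.step _ _ x.2)]
      rw [h2]; exact h1
    obtain ⟨w0, hw0⟩ := hVne
    intro w
    have hφ : Differentiable ℂ (fun t : ℂ => ext f (chart x.1 X (w0 + t • (w - w0)))) := by
      refine hd.comp (g := fun w : Fin p → ℂ => ext f (chart x.1 X w)) ?_
      exact (differentiable_const _).add (differentiable_id.smul_const _)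
    have hc : Continuous (fun t : ℂ => w0 + t • (w - w0)) := by fun_prop
    have hev : ∀ᶠ t in 𝓝 (0 : ℂ), ext f (chart x.1 X (w0 + t • (w - w0))) = 0 := by
      have hm : V ∈ 𝓝 (w0 + (0 : ℂ) • (w - w0)) := by
        rw [zero_smul, add_zero]; exact hV.mem_nhds hw0
      filter_upwards [hc.continuousAt.preimage_mem_nhds hm] with t ht
      exact hcon _ ht
    have := entire_zero _ hφ hev 1
    simpa using this
  set e := (Module.finBasis ℂ g).equivFun with he
  have hsize : ∀ y : g, size y = ∑ i, ‖e y i‖ := fun y => rfl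
  -- the points near which the function vanishes
  have step1 : ∀ᶠ v in 𝓝 (e x.1), ext f (e.symm v) = 0 := by
    have hOx := hS x₀ x.1 x.2
    have hxn : IsNilpotent (LieAlgebra.ad ℂ g x.1) := hOx.2.2 hnil
    have hx0 : x.1 ≠ 0 := by
      intro h
      have h1 : ∀ y : g, Orb x.1 y → y = 0 := by
        intro y hy
        induction hy with
        | base => exact h
        | step y z _ ih => rw [ih, map_zero]
      exact hx₀ (h1 x₀ hOx.1)
    obtain ⟨W, δ, ε, hδ, hε, -, hW, -⟩ := hNEA g x.1 hx0 hxn p X hX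
    have hcont : Continuous (fun v : Fin (Module.finrank ℂ g) → ℂ => ∑ i, ‖v i - e x.1 i‖) := by
      fun_prop
    have hm : {v : Fin (Module.finrank ℂ g) → ℂ | ∑ i, ‖v i - e x.1 i‖ < δ} ∈ 𝓝 (e x.1) := by
      apply (isOpen_lt hcont continuous_const).mem_nhds
      simpa using hδ
    filter_upwards [hm] with v hv
    by_cases hO : Orb x₀ (e.symm v)
    · have hOv := hS x₀ _ hO
      have hs : size (e.symm v - x.1) < δ := by
        rw [hsize]
        simp only [map_sub, LinearEquiv.apply_symm_apply, Pi.sub_apply]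
        exact hv
      rw [hW (e.symm v) hs (hOv.2.2 hnil) (hOv.2.1.trans hOx.2.1.symm)]
      exact h0 _
    · unfold ext
      rw [dif_neg hO]
  have step2 : ∀ y : g, Orb x₀ y → (∀ᶠ v in 𝓝 (e y), ext f (e.symm v) = 0) → ∀ Z : g,
      ∀ᶠ v in 𝓝 (e (expAd Z y)), ext f (e.symm v) = 0 := by
    intro y hy hev Z
    obtain ⟨U, hU1, hU2, hU3⟩ := mem_nhds_iff.mp hev
    let L : (Fin (Module.finrank ℂ g) → ℂ) →ₗ[ℂ] (Fin (Module.finrank ℂ g) → ℂ) :=
      (e : g →ₗ[ℂ] _) ∘ₗ (expAd (-Z)) ∘ₗ (e.symm : _ →ₗ[ℂ] g)
    have hL : Continuous L := LinearMap.continuous_of_finiteDimensional L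
    have hLa : ∀ v, L v = e (expAd (-Z) (e.symm v)) := fun v => rfl
    have hLy : L (e (expAd Z y)) = e y := by
      rw [hLa, LinearEquiv.symm_apply_apply, (hA Z y y).2.1]
    have hm : L ⁻¹' U ∈ 𝓝 (e (expAd Z y)) := by
      apply (hU2.preimage hL).mem_nhds
      change L (e (expAd Z y)) ∈ U
      rw [hLy]; exact hU3
    filter_upwards [hm] with v hv
    by_cases hO : Orb x₀ (e.symm v)
    · set y' := e.symm v with hy'
      have hO2 : Orb x₀ (expAd (-Z) y') := Orb.step _ _ hO
      have hback : expAd Z (expAd (-Z) y') = y' := by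
        have := (hA (-Z) y' y').2.1
        rwa [neg_neg] at this
      let X1 : Fin 1 → g := fun _ => Z
      have hch : ∀ t : ℂ, chart (expAd (-Z) y') X1 (fun _ => t) =
          expAd (t • Z) (expAd (-Z) y') := by
        intro t
        unfold chart
        simp [X1]
      have hφ : Differentiable ℂ (fun t : ℂ =>
          ext f (chart (expAd (-Z) y') X1 (fun _ => t))) := by
        have h1 := hf.1 ⟨_, hO2⟩ 1 X1
        have h2 : (fun t : ℂ => ext f (chart (expAd (-Z) y') X1 (fun _ => t))) =
            (fun w : Fin 1 → ℂ => f ⟨chart (expAd (-Z) y') X1 w, Orb.step _ _ hO2⟩) ∘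
              (fun t : ℂ => (fun _ => t : Fin 1 → ℂ)) := by
          funext t
          unfold ext
          rw [dif_pos (show Orb x₀ (chart (expAd (-Z) y') X1 (fun _ => t)) from
            Orb.step _ _ hO2)]
          rfl
        rw [h2]
        refine h1.comp ?_
        exact differentiable_pi.mpr fun _ => differentiable_id
      have hcc : Continuous (fun t : ℂ =>
          e (chart (expAd (-Z) y') X1 (fun _ => t))) := by
        have h1 := (hC 1 (expAd (-Z) y') X1).1
        have h2 : Continuous (fun z : Fin 1 → ℂ => co (chart (expAd (-Z) y') X1 z)) := by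
          have := h1.continuousOn
          rwa [continuousOn_univ] at this
        exact h2.comp (continuous_pi fun _ => continuous_id)
      have hev2 : ∀ᶠ t in 𝓝 (0 : ℂ), ext f (chart (expAd (-Z) y') X1 (fun _ => t)) = 0 := by
        have hz : e (chart (expAd (-Z) y') X1 (fun _ => (0 : ℂ))) ∈ U := by
          have h1 := (hC 1 (expAd (-Z) y') X1).2.1
          have h2 : chart (expAd (-Z) y') X1 (fun _ => (0 : ℂ)) = expAd (-Z) y' := h1
          rw [h2]; exact hv
        filter_upwards [hcc.continuousAt.preimage_mem_nhds (hU2.mem_nhds hz)] with t ht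
        have h3 := hU1 ht
        simpa using h3
      have h4 := entire_zero _ hφ hev2 1
      rw [hch, one_smul, hback] at h4
      exact h4
    · unfold ext
      rw [dif_neg hO]
  have step3 : ∀ y : g, Orb x.1 y → ∀ᶠ v in 𝓝 (e y), ext f (e.symm v) = 0 := by
    intro y hy
    induction hy with
    | base => exact step1
    | step y z hy ih => exact step2 y (hT x₀ x.1 y x.2 hy) ih z
  funext y
  have hxy : Orb x.1 y.1 := hT x.1 x₀ y.1 (hS x₀ x.1 x.2).1 y.2
  have h5 := (step3 y.1 hxy).self_of_nhds
  rw [LinearEquiv.symm_apply_apply] at h5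
  unfold ext at h5
  rw [dif_pos y.2] at h5
  exact h5

end Pool.Agent.Helper57.KP
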