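import Pool.Agent.Helper52.KP.StM

/-! Project KP, module GAU (Gaussian integral for a Hermitian form), by helper57. -/

set_option autoImplicit false

namespace Pool.Agent.Helper57.KP

open MeasureTheory Pool.Agent.Helper52.KP Matrix
open scoped MatrixOrder ComplexOrder

private lemma hf_eq {p : ℕ} (A : Matrix (Fin p) (Fin p) ℂ) (ξ : Fin p → ℂ) :
    hf A ξ = (star ξ ⬝ᵥ (Aᵀ *ᵥ ξ)).re := by
  unfold hf
  congr 1
  simp only [dotProduct, mulVec, Matrix.transpose_apply, Finset.mul_sum, Pi.star_apply]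
  rw [Finset.sum_comm]
  refine Finset.sum_congr rfl fun k _ => Finset.sum_congr rfl fun j _ => ?_
  ring

private lemma posdef_of_Pd {p : ℕ} (A : Matrix (Fin p) (Fin p) ℂ) (h : Pd A) :
    (Aᵀ).PosDef := by
  have hH : (Aᵀ).IsHermitian := h.1.transpose
  refine Matrix.PosDef.of_dotProduct_mulVec_pos hH fun ξ hξ => ?_
  have h1 := h.2 ξ hξ
  rw [hf_eq] at h1
  have h2 : (star ξ ⬝ᵥ (Aᵀ *ᵥ ξ)).im = 0 := hH.im_star_dotProduct_mulVec_self ξ
  rw [Complex.lt_def]
  exact ⟨h1, h2.symm⟩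

private lemma factor {p : ℕ} (A : Matrix (Fin p) (Fin p) ℂ) (h : Pd A) :
    ∃ B : Matrix (Fin p) (Fin p) ℂ, Complex.normSq B.det = A.det.re ∧ 0 < A.det.re ∧
      ∀ ξ, hf A ξ = ∑ j, ‖(B *ᵥ ξ) j‖ ^ 2 := by
  have hP := posdef_of_Pd A h
  obtain ⟨B, hB⟩ := CStarAlgebra.nonneg_iff_eq_star_mul_self.mp hP.posSemidef.nonneg
  have hdet : A.det = star B.det * B.det := by
    rw [← Matrix.det_transpose A, hB, Matrix.det_mul, Matrix.star_eq_conjTranspose,
      Matrix.det_conjTranspose]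
  have hre : Complex.normSq B.det = A.det.re := by
    rw [hdet]
    have : star B.det * B.det = ((Complex.normSq B.det : ℝ) : ℂ) := by
      rw [mul_comm]
      exact Complex.mul_conj _
    rw [this, Complex.ofReal_re]
  refine ⟨B, hre, ?_, fun ξ => ?_⟩
  · have h1 := hP.det_pos
    rw [Matrix.det_transpose, Complex.lt_def] at h1
    exact h1.1
  · rw [hf_eq, hB, Matrix.star_eq_conjTranspose, ← Matrix.mulVec_mulVec, dotProduct_mulVec,
      vecMul_conjTranspose, star_star]
    simp only [dotProduct, Pi.star_apply, Complex.re_sum]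
    refine Finset.sum_congr rfl fun j _ => ?_
    have : star ((B *ᵥ ξ) j) * (B *ᵥ ξ) j = ((‖(B *ᵥ ξ) j‖ ^ 2 : ℝ) : ℂ) := by
      rw [mul_comm]
      have := Complex.mul_conj ((B *ᵥ ξ) j)
      rw [Complex.normSq_eq_norm_sq] at this
      exact this
    rw [this, Complex.ofReal_re]

private lemma gauss_one : Integrable (fun z : ℂ => Real.exp (-‖z‖ ^ 2)) ∧
    ∫ z : ℂ, Real.exp (-‖z‖ ^ 2) = Real.pi := by
  constructor
  · have h := GaussianFourier.integrable_cexp_neg_mul_sq_norm_add (V := ℂ) (b := 1)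
      (by simp) 0 0
    have h2 := h.norm
    refine h2.congr (Filter.Eventually.of_forall fun z => ?_)
    simp only [Complex.norm_exp]
    congr 1
    simp [← Complex.ofReal_pow]
  · have h := GaussianFourier.integral_rexp_neg_mul_sq_norm (V := ℂ) (b := 1) one_pos
    simpa using h

private lemma gauss_std (p : ℕ) :
    Integrable (fun ξ : Fin p → ℂ => Real.exp (-∑ j, ‖ξ j‖ ^ 2)) ∧
    ∫ ξ : Fin p → ℂ, Real.exp (-∑ j, ‖ξ j‖ ^ 2) = Real.pi ^ p := by
  have he : (fun ξ : Fin p → ℂ => Real.exp (-∑ j, ‖ξ j‖ ^ 2)) =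
      fun ξ : Fin p → ℂ => ∏ j, Real.exp (-‖ξ j‖ ^ 2) := by
    funext ξ
    rw [← Real.exp_sum, Finset.sum_neg_distrib]
  rw [he]
  constructor
  · exact MeasureTheory.Integrable.fintype_prod (f := fun _ (z : ℂ) => Real.exp (-‖z‖ ^ 2))
      (fun _ => gauss_one.1)
  · rw [integral_fintype_prod_volume_eq_prod (fun (_ : Fin p) (z : ℂ) => Real.exp (-‖z‖ ^ 2))]
    simp only [gauss_one.2, Finset.prod_const, Finset.card_univ, Fintype.card_fin]

theorem hGAU : StGAU := by
  intro p A hA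
  obtain ⟨B, hdet, hpos, hB⟩ := factor A hA
  let L : (Fin p → ℂ) →ₗ[ℝ] (Fin p → ℂ) := (Matrix.toLin' B).restrictScalars ℝ
  have hL : LinearMap.det L = A.det.re := by
    change LinearMap.det ((Matrix.toLin' B).restrictScalars ℝ) = _
    rw [LinearMap.det_restrictScalars, LinearMap.det_toLin', Algebra.norm_complex_apply, hdet]
  have hL0 : LinearMap.det L ≠ 0 := by
    rw [hL]; exact hpos.ne'
  have hmap : Measure.map L (volume : Measure (Fin p → ℂ)) =
      ENNReal.ofReal |(LinearMap.det L)⁻¹| • volume :=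
    Measure.map_linearMap_addHaar_eq_smul_addHaar volume hL0
  have hLc : Continuous L := LinearMap.continuous_of_finiteDimensional L
  have hfun : (fun ξ : Fin p → ℂ => Real.exp (-hf A ξ)) =
      fun ξ => (fun η : Fin p → ℂ => Real.exp (-∑ j, ‖η j‖ ^ 2)) (L ξ) := by
    funext ξ
    change Real.exp (-hf A ξ) = Real.exp (-∑ j, ‖(Matrix.toLin' B ξ) j‖ ^ 2)
    rw [hB, Matrix.toLin'_apply]
  obtain ⟨hi, hv⟩ := gauss_std p
  have habs : |(LinearMap.det L)⁻¹| = (A.det.re)⁻¹ := by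
    rw [hL, abs_of_pos (inv_pos.mpr hpos)]
  have hi2 : Integrable (fun η : Fin p → ℂ => Real.exp (-∑ j, ‖η j‖ ^ 2))
      (Measure.map L (volume : Measure (Fin p → ℂ))) := by
    rw [hmap]
    exact hi.smul_measure ENNReal.ofReal_ne_top
  rw [hfun]
  constructor
  · exact hi2.comp_measurable hLc.measurable
  · rw [← integral_map hLc.measurable.aemeasurable hi2.aestronglyMeasurable, hmap,
      integral_smul_measure, hv, habs, ENNReal.toReal_ofReal (inv_nonneg.mpr hpos.le),
      smul_eq_mul, div_eq_mul_inv, mul_comm]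

end Pool.Agent.Helper57.KP
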