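import Pool.Agent.Helper68.KP.StR

/-! Project KP, module LOW (lowest components multiply), by helper57. -/

set_option autoImplicit false

namespace Pool.Agent.Helper57.KP

open Pool.Agent.Helper52.KP Pool.Agent.Helper68.KP

/-- decomposition: the lowest component -/
private lemma lowest {A : Type} [CommRing A] [Algebra ℂ A] (E : ℕ → Submodule ℂ A)
    (W : ∀ k, E k →ₗ[ℂ] E k) (k n : ℕ) (e : Fin n → E k) (w : Fin n → ℝ)
    (hli : LinearIndependent ℂ e) (hsp : Submodule.span ℂ (Set.range e) = ⊤)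
    (hGW : ∀ y, GW W k y = Submodule.span ℂ ((fun j => (e j : A)) '' {j | y ≤ w j}))
    (f : A) (hf : f ∈ E k) (y : ℝ) (hy : f ∉ GW W k y) :
    ∃ (a : Fin n → ℂ) (ω : ℝ), ω < y ∧ f = ∑ i, a i • (e i : A) ∧
      (∀ i, a i ≠ 0 → ω ≤ w i) ∧ ∑ i, (if w i = ω then a i else 0) • (e i : A) ≠ 0 := by
  have hF : (⟨f, hf⟩ : E k) ∈ Submodule.span ℂ (Set.range e) := by rw [hsp]; trivial
  obtain ⟨a, ha⟩ := (Submodule.mem_span_range_iff_exists_fun ℂ).mp hF
  have hfa : f = ∑ i, a i • (e i : A) := by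
    have h1 := congrArg (fun z : E k => (z : A)) ha
    simp only [AddSubmonoidClass.coe_finsetSum, Submodule.coe_smul] at h1
    exact h1.symm
  have hex : ∃ i, a i ≠ 0 ∧ w i < y := by
    by_contra hcon
    push Not at hcon
    apply hy
    rw [hGW, hfa]
    refine Submodule.sum_mem _ fun i _ => ?_
    by_cases h0 : a i = 0
    · rw [h0, zero_smul]; exact Submodule.zero_mem _
    · exact Submodule.smul_mem _ _ (Submodule.subset_span ⟨i, hcon i h0, rfl⟩)
  obtain ⟨j, hj0, hjy⟩ := hex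
  classical
  obtain ⟨i0, hi0, hmin⟩ := Finset.exists_min_image (Finset.univ.filter fun i => a i ≠ 0) w
    ⟨j, by simp [hj0]⟩
  have hi0' : a i0 ≠ 0 := (Finset.mem_filter.mp hi0).2
  refine ⟨a, w i0, (hmin j (by simp [hj0])).trans_lt hjy, hfa,
    fun i hi => hmin i (by simp [hi]), fun h0 => ?_⟩
  have h1 : ∑ i, (if w i = w i0 then a i else 0) • e i = 0 := by
    apply Subtype.ext
    simp only [AddSubmonoidClass.coe_finsetSum, Submodule.coe_smul, ZeroMemClass.coe_zero]
    exact h0
  have h2 := Fintype.linearIndependent_iff.mp hli _ h1 i0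
  rw [if_pos rfl] at h2
  exact hi0' h2

theorem hLOW (hEIG : StEIG) : StLOW := by
  intro A _ _ _ E ip M hSG hHF W hDD hSA k k' f f' y y' hf hf' hfy hfy' hmem
  obtain ⟨e, w, -, hw, hli, hsp, hGW⟩ := hEIG A E ip k (hSG.fd k) hHF W hSA
  obtain ⟨e', w', -, hw', hli', hsp', hGW'⟩ := hEIG A E ip k' (hSG.fd k') hHF W hSA
  obtain ⟨a, ω, hω, hfa, hmin, hne⟩ := lowest E W k _ e w hli hsp hGW f hf y hfy
  obtain ⟨a', ω', hω', hfa', hmin', hne'⟩ := lowest E W k' _ e' w' hli' hsp' hGW' f' hf' y' hfy'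
  let T : Module.End ℂ (E (k + k')) := W (k + k')
  let z : ℂ := ((ω + ω' : ℝ) : ℂ)
  let Q : Submodule ℂ (E (k + k')) := ⨆ (μ : ℂ) (_ : μ ≠ z), T.eigenspace μ
  -- eigenvectors in Q
  have hQ : ∀ (g : E (k + k')) (x : ℝ), W (k + k') g = (x : ℂ) • g → x ≠ ω + ω' → g ∈ Q := by
    intro g x hg hx
    have hxz : (x : ℂ) ≠ z := by
      intro h; exact hx (Complex.ofReal_injective h)
    have h1 : T.eigenspace (x : ℂ) ≤ Q := le_iSup₂_of_le (x : ℂ) hxz le_rfl
    exact h1 (Module.End.mem_eigenspace_iff.mpr hg)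
  -- products
  have hprod : ∀ (u : E k) (v : E k') (x x' : ℝ), W k u = (x : ℂ) • u → W k' v = (x' : ℂ) • v →
      W (k + k') ⟨(u : A) * v, hSG.mul k k' u v u.2 v.2⟩ =
        ((x + x' : ℝ) : ℂ) • ⟨(u : A) * v, hSG.mul k k' u v u.2 v.2⟩ := by
    intro u v x x' hu hv
    apply Subtype.ext
    rw [hDD k k' u v ⟨(u : A) * v, hSG.mul k k' u v u.2 v.2⟩ rfl, hu, hv]
    simp only [Submodule.coe_smul, smul_mul_assoc, mul_smul_comm, Complex.ofReal_add, add_smul,
      Submodule.coe_add]
  let U : E k := ∑ i, (if w i = ω then a i else 0) • e i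
  let U' : E k' := ∑ i, (if w' i = ω' then a' i else 0) • e' i
  have hU : (U : A) = ∑ i, (if w i = ω then a i else 0) • (e i : A) := by
    simp only [U, AddSubmonoidClass.coe_finsetSum, Submodule.coe_smul]
  have hU' : (U' : A) = ∑ i, (if w' i = ω' then a' i else 0) • (e' i : A) := by
    simp only [U', AddSubmonoidClass.coe_finsetSum, Submodule.coe_smul]
  have hWU : W k U = (ω : ℂ) • U := by
    simp only [U, map_sum, map_smul, Finset.smul_sum]
    refine Finset.sum_congr rfl fun i _ => ?_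
    rw [hw i]
    split_ifs with h
    · rw [h, smul_comm]
    · simp
  have hWU' : W k' U' = (ω' : ℂ) • U' := by
    simp only [U', map_sum, map_smul, Finset.smul_sum]
    refine Finset.sum_congr rfl fun i _ => ?_
    rw [hw' i]
    split_ifs with h
    · rw [h, smul_comm]
    · simp
  -- the lowest component of the product
  let G : E (k + k') := ⟨(U : A) * U', hSG.mul k k' U U' U.2 U'.2⟩
  have hGz : G ∈ T.eigenspace z := Module.End.mem_eigenspace_iff.mpr (hprod U U' ω ω' hWU hWU')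
  have hG0 : G ≠ 0 := by
    intro h
    have h1 : (U : A) * U' = 0 := congrArg (fun t : E (k + k') => (t : A)) h
    rcases mul_eq_zero.mp h1 with h2 | h2
    · rw [hU] at h2; exact hne h2
    · rw [hU'] at h2; exact hne' h2
  -- the product
  have hP : (⟨f * f', hSG.mul k k' f f' hf hf'⟩ : E (k + k')) ∈ Q := by
    have h1 : GW W (k + k') (y + y') ≤ Q.map (E (k + k')).subtype := by
      apply Submodule.span_le.mpr
      rintro _ ⟨g, x, hx, hg, rfl⟩
      exact ⟨g, hQ g x hg (by linarith), rfl⟩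
    obtain ⟨g, hg, hgf⟩ := h1 hmem
    have h2 : g = (⟨f * f', hSG.mul k k' f f' hf hf'⟩ : E (k + k')) := Subtype.ext hgf
    rw [← h2]; exact hg
  let R : E (k + k') := ∑ i, ∑ j, (if w i = ω ∧ w' j = ω' then 0 else a i * a' j) •
    (⟨(e i : A) * e' j, hSG.mul k k' (e i) (e' j) (e i).2 (e' j).2⟩ : E (k + k'))
  have hR : R ∈ Q := by
    refine Submodule.sum_mem _ fun i _ => Submodule.sum_mem _ fun j _ => ?_
    by_cases h0 : w i = ω ∧ w' j = ω'
    · rw [if_pos h0, zero_smul]; exact Submodule.zero_mem _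
    · rw [if_neg h0]
      by_cases ha : a i = 0
      · rw [ha, zero_mul, zero_smul]; exact Submodule.zero_mem _
      by_cases ha' : a' j = 0
      · rw [ha', mul_zero, zero_smul]; exact Submodule.zero_mem _
      refine Submodule.smul_mem _ _ (hQ _ (w i + w' j) (hprod _ _ _ _ (hw i) (hw' j)) ?_)
      intro heq
      have h1 := hmin i ha
      have h2 := hmin' j ha'
      exact h0 ⟨by linarith, by linarith⟩
  have hdec : (⟨f * f', hSG.mul k k' f f' hf hf'⟩ : E (k + k')) = G + R := by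
    apply Subtype.ext
    have hGv : (G : A) = (U : A) * U' := rfl
    have hRv : (R : A) = ∑ i, ∑ j, (if w i = ω ∧ w' j = ω' then 0 else a i * a' j) •
        ((e i : A) * e' j) := by
      simp only [R, AddSubmonoidClass.coe_finsetSum, Submodule.coe_smul]
    rw [Submodule.coe_add, hGv, hRv, hU, hU']
    change f * f' = _
    rw [hfa, hfa', Finset.sum_mul_sum, Finset.sum_mul_sum, ← Finset.sum_add_distrib]
    refine Finset.sum_congr rfl fun i _ => ?_
    rw [← Finset.sum_add_distrib]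
    refine Finset.sum_congr rfl fun j _ => ?_
    simp only [smul_mul_assoc, mul_smul_comm, smul_smul]
    rw [← add_smul]
    congr 1
    by_cases h1 : w i = ω
    · by_cases h2 : w' j = ω'
      · rw [if_pos h1, if_pos h2, if_pos ⟨h1, h2⟩]; ring
      · rw [if_pos h1, if_neg h2, if_neg (show ¬(w i = ω ∧ w' j = ω') from fun h => h2 h.2)]
        ring
    · rw [if_neg h1, if_neg (show ¬(w i = ω ∧ w' j = ω') from fun h => h1 h.1)]
      ring
  have hGQ : G ∈ Q := by
    have h1 : G = (⟨f * f', hSG.mul k k' f f' hf hf'⟩ : E (k + k')) - R := by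
      rw [hdec, add_sub_cancel_right]
    rw [h1]
    exact Submodule.sub_mem _ hP hR
  have hind := (Module.End.eigenspaces_iSupIndep T) z
  have := Submodule.disjoint_def.mp hind G hGz hGQ
  exact hG0 this

end Pool.Agent.Helper57.KP
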